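import Mathlib

namespace Pool.Agent.Results.MP_d898df_co.Lower

open Classical

variable {V : Type} [Fintype V]

/-- The degree of a vertex. -/
noncomputable def dg (G : SimpleGraph V) (v : V) : ℕ := (G.neighborSet v).ncard

/-- `G` has a degree monotone path on `m` vertices. -/
def HasMP (G : SimpleGraph V) (m : ℕ) : Prop :=
  ∃ f : Fin m → V, Function.Injective f ∧ (∀ i j : Fin m, i.val + 1 = j.val → G.Adj (f i) (f j)) ∧
    (Monotone (fun i => dg G (f i)) ∨ Antitone (fun i => dg G (f i)))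

/-- The largest length of a degree monotone path. -/
noncomputable def mp (G : SimpleGraph V) : ℕ := sSup {m | HasMP G m}

/-- `k`-saturated graphs. -/
def Saturated (k : ℕ) (G : SimpleGraph V) : Prop :=
  mp G ≤ k - 1 ∧ ∀ u v, u ≠ v → ¬ G.Adj u v → k ≤ mp (G ⊔ SimpleGraph.edge u v)

/-- The saturation number `h(n,k)`. -/
noncomputable def h (n k : ℕ) : ℕ :=
  sInf {e | ∃ G : SimpleGraph (Fin n), Saturated k G ∧ G.edgeSet.ncard = e}

def P5 (A : V → V → Prop) (d : V → ℕ) : Prop :=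
  ∃ a b c e f : V, (a ≠ b ∧ a ≠ c ∧ a ≠ e ∧ a ≠ f ∧ b ≠ c ∧ b ≠ e ∧ b ≠ f ∧ c ≠ e ∧ c ≠ f ∧ e ≠ f) ∧
    (A a b ∧ A b c ∧ A c e ∧ A e f) ∧ d a ≤ d b ∧ d b ≤ d c ∧ d c ≤ d e ∧ d e ≤ d f

lemma bdd (G : SimpleGraph V) : BddAbove {m | HasMP G m} :=
  ⟨Fintype.card V, fun m ⟨f, hf, _⟩ => by simpa using Fintype.card_le_of_injective f hf⟩

lemma zero_mem (G : SimpleGraph V) : HasMP G 0 :=
  ⟨Fin.elim0, fun i => i.elim0, fun i => i.elim0, Or.inl fun i => i.elim0⟩

lemma of_p5 (G : SimpleGraph V) (H : P5 G.Adj (dg G)) : 5 ≤ mp G := by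
  obtain ⟨a, b, c, e, f, hne, hA, hd⟩ := H
  refine le_csSup (bdd G) ⟨![a, b, c, e, f], ?_, ?_, Or.inl ?_⟩
  · intro i j hij
    fin_cases i <;> fin_cases j <;> simp_all [eq_comm]
  · intro i j hij
    fin_cases i <;> fin_cases j <;> simp_all
  · intro i j hij
    fin_cases i <;> fin_cases j <;> simp at hij ⊢ <;> omega

lemma to_p5 (G : SimpleGraph V) (H : 5 ≤ mp G) : P5 G.Adj (dg G) := by
  have hm : HasMP G (mp G) := Nat.sSup_mem ⟨0, zero_mem G⟩ (bdd G)
  generalize mp G = m at H hm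
  obtain ⟨f, hf, hA, hd⟩ := hm
  have ne : ∀ i j (hi : i < m) (hj : j < m), i ≠ j → f ⟨i, hi⟩ ≠ f ⟨j, hj⟩ :=
    fun i j hi hj hij => hf.ne (by simpa using hij)
  rcases hd with hd | hd
  · refine ⟨f ⟨0, by omega⟩, f ⟨1, by omega⟩, f ⟨2, by omega⟩, f ⟨3, by omega⟩, f ⟨4, by omega⟩,
      ?_, ⟨hA _ _ rfl, hA _ _ rfl, hA _ _ rfl, hA _ _ rfl⟩, ?_⟩
    · refine ⟨?_, ?_, ?_, ?_, ?_, ?_, ?_, ?_, ?_, ?_⟩ <;> exact ne _ _ _ _ (by omega)
    · refine ⟨?_, ?_, ?_, ?_⟩ <;> exact hd (by simp [Fin.le_def])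
  · refine ⟨f ⟨4, by omega⟩, f ⟨3, by omega⟩, f ⟨2, by omega⟩, f ⟨1, by omega⟩, f ⟨0, by omega⟩,
      ?_, ⟨(hA _ _ rfl).symm, (hA _ _ rfl).symm, (hA _ _ rfl).symm, (hA _ _ rfl).symm⟩, ?_⟩
    · refine ⟨?_, ?_, ?_, ?_, ?_, ?_, ?_, ?_, ?_, ?_⟩ <;> exact ne _ _ _ _ (by omega)
    · refine ⟨?_, ?_, ?_, ?_⟩ <;> exact hd (by simp [Fin.le_def])

lemma dg_add (G : SimpleGraph V) {u v : V} (huv : u ≠ v) (hn : ¬ G.Adj u v) (x : V) :
    dg (G ⊔ SimpleGraph.edge u v) x = dg G x + if x = u ∨ x = v then 1 else 0 := by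
  unfold dg
  by_cases h1 : x = u
  · subst h1
    have : (G ⊔ SimpleGraph.edge x v).neighborSet x = insert v (G.neighborSet x) := by
      ext z; simp [SimpleGraph.edge_adj]; aesop
    rw [this, Set.ncard_insert_of_notMem (by simpa using hn)]; simp
  · by_cases h2 : x = v
    · subst h2
      have : (G ⊔ SimpleGraph.edge u x).neighborSet x = insert u (G.neighborSet x) := by
        ext z; simp [SimpleGraph.edge_adj]; aesop
      rw [this, Set.ncard_insert_of_notMem (by simpa using fun h => hn h.symm)]; simp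
    · have : (G ⊔ SimpleGraph.edge u v).neighborSet x = G.neighborSet x := by
        ext z; simp [SimpleGraph.edge_adj]; aesop
      rw [this]; simp [h1, h2]

structure Sat (G : SimpleGraph V) : Prop where
  no : ¬ P5 G.Adj (dg G)
  yes : ∀ u v, u ≠ v → ¬ G.Adj u v → ∃ (A : V → V → Prop) (e : V → ℕ),
    (∀ x z, A x z → G.Adj x z ∨ (x = u ∧ z = v) ∨ (x = v ∧ z = u)) ∧
    (∀ x, x ≠ u → x ≠ v → e x = dg G x) ∧ e u = dg G u + 1 ∧ e v = dg G v + 1 ∧ P5 A e

lemma sat_of (G : SimpleGraph V) (H : Saturated 5 G) : Sat G := by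
  refine ⟨fun h => ?_, fun u v huv hn => ?_⟩
  · have := of_p5 G h
    have := H.1
    omega
  · refine ⟨_, _, fun x z hxz => ?_, fun x h1 h2 => ?_, ?_, ?_, to_p5 _ (H.2 u v huv hn)⟩
    · rw [SimpleGraph.sup_adj, SimpleGraph.edge_adj] at hxz
      rcases hxz with h | h
      · exact Or.inl h
      · exact Or.inr h.1
    · rw [dg_add G huv hn]; simp [h1, h2]
    · rw [dg_add G huv hn]; simp
    · rw [dg_add G huv hn]; simp

lemma one_le {G : SimpleGraph V} {x a : V} (h : G.Adj x a) : 1 ≤ dg G x :=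
  (Set.ncard_pos (Set.toFinite _)).2 ⟨a, h⟩

lemma two_le {G : SimpleGraph V} {x a b : V} (ha : G.Adj x a) (hb : G.Adj x b) (h : a ≠ b) :
    2 ≤ dg G x :=
  (Set.one_lt_ncard (Set.toFinite _)).2 ⟨a, ha, b, hb, h⟩

lemma three_le {G : SimpleGraph V} {x a b c : V} (ha : G.Adj x a) (hb : G.Adj x b)
    (hc : G.Adj x c) (h1 : a ≠ b) (h2 : a ≠ c) (h3 : b ≠ c) : 3 ≤ dg G x :=
  (Set.two_lt_ncard (Set.toFinite _)).2 ⟨a, ha, b, hb, c, hc, h1, h2, h3⟩

lemma nb1 {G : SimpleGraph V} {x a : V} (ha : G.Adj x a) (h : dg G x ≤ 1) (z : V)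
    (hz : G.Adj x z) : z = a := by
  by_contra hne
  have := two_le ha hz (Ne.symm hne)
  omega

lemma nb2 {G : SimpleGraph V} {x a b : V} (ha : G.Adj x a) (hb : G.Adj x b) (hab : a ≠ b)
    (h : dg G x ≤ 2) (z : V) (hz : G.Adj x z) : z = a ∨ z = b := by
  by_contra hne
  push Not at hne
  have := three_le ha hb hz hab hne.1.symm hne.2.symm
  omega

lemma other {G : SimpleGraph V} {x : V} (a : V) (h : 2 ≤ dg G x) : ∃ z, G.Adj x z ∧ z ≠ a := by
  obtain ⟨p, hp, q, hq, hpq⟩ := (Set.one_lt_ncard (Set.toFinite _)).1 h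
  by_cases hpa : p = a
  · exact ⟨q, hq, fun h => hpq (hpa.trans h.symm)⟩
  · exact ⟨p, hp, hpa⟩

lemma leaf {G : SimpleGraph V} (S : Sat G) {u w p q : V} (h1 : G.Adj u w) (h2 : G.Adj w p)
    (h3 : G.Adj p q) (n1 : u ≠ p) (n3 : w ≠ q) (du : dg G u ≤ 1) (dw : dg G w ≤ 2)
    (dp : dg G p ≤ 2) (dq : dg G q ≤ 2) : False := by
  have Nu := nb1 h1 du
  have Nw := nb2 h1.symm h2 n1 dw
  have Np := nb2 h2.symm h3 n3 dp
  have dp2 := two_le h2.symm h3 n3
  have n2 : u ≠ q := fun h => h2.ne (Nu p (h ▸ h3.symm)).symm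
  obtain ⟨A, e, hA, he, eu, ep, a, b, c, x, f, hne, ⟨a1, a2, a3, a4⟩, hd⟩ :=
    S.yes u p n1 (fun h => h2.ne (Nu p h).symm)
  have ew := he w h1.ne.symm h2.ne
  have eq := he q n2.symm h3.ne.symm
  have Au : ∀ z, A u z ∨ A z u → z = w ∨ z = p := by
    rintro z (h | h) <;> rcases hA _ _ h with h | h | h
    · exact Or.inl (Nu z h)
    · exact Or.inr h.2
    · exact absurd h.1 n1
    · exact Or.inl (Nu z h.symm)
    · exact absurd h.2 n1
    · exact Or.inr h.1
  have Aw : ∀ z, A w z ∨ A z w → z = u ∨ z = p := by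
    rintro z (h | h) <;> rcases hA _ _ h with h | h | h
    · exact Nw z h
    · exact absurd h.1 h1.ne.symm
    · exact absurd h.1 h2.ne
    · exact Nw z h.symm
    · exact absurd h.2 h2.ne
    · exact absurd h.2 h1.ne.symm
  have Ap : ∀ z, A p z ∨ A z p → z = u ∨ z = w ∨ z = q := by
    rintro z (h | h) <;> rcases hA _ _ h with h | h | h
    · exact Or.inr (Np z h)
    · exact absurd h.1.symm n1
    · exact Or.inl h.2
    · exact Or.inr (Np z h.symm)
    · exact Or.inl h.1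
    · exact absurd h.2.symm n1
  have last : ∀ s t, A s t → e s ≤ e t → s ≠ p := by
    rintro s t hst hle rfl
    rcases Ap t (Or.inl hst) with rfl | rfl | rfl <;> omega
  have m1 := last _ _ a1 hd.1
  have m2 := last _ _ a2 hd.2.1
  have m3 := last _ _ a3 hd.2.2.1
  have m4 := last _ _ a4 hd.2.2.2
  have mid : ∀ s t r, A s t → A t r → s ≠ r → s ≠ p → r ≠ p → t ≠ u ∧ t ≠ w := by
    intro s t r hs hr hsr hsp hrp
    constructor
    · rintro rfl
      have := Au s (Or.inr hs); have := Au r (Or.inl hr); grind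
    · rintro rfl
      have := Aw s (Or.inr hs); have := Aw r (Or.inl hr); grind
  have nx : ∀ s t, A s t ∨ A t s → s ≠ p → s ≠ u ∧ s ≠ w → t ≠ u ∧ t ≠ w := by
    intro s t hs hsp hsu
    constructor
    · rintro rfl
      have := Au s hs.symm; grind
    · rintro rfl
      have := Aw s hs.symm; grind
  have k2 := mid _ _ _ a1 a2 hne.2.1 m1 m3
  have k1 := nx _ _ (Or.inr a1) m2 k2
  have k3 := nx _ _ (Or.inl a2) m2 k2
  have k4 := nx _ _ (Or.inl a3) m3 k3
  have k5 := nx _ _ (Or.inl a4) m4 k4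
  have g : ∀ s t, A s t → s ≠ u → s ≠ p → G.Adj s t := fun s t h h1 h2 => by
    rcases hA _ _ h with h | h | h
    · exact h
    · exact absurd h.1 h1
    · exact absurd h.1 h2
  have e1 := he _ k1.1 m1
  have e2 := he _ k2.1 m2
  have e3 := he _ k3.1 m3
  have e4 := he _ k4.1 m4
  refine S.no ⟨a, b, c, x, f, hne, ⟨g _ _ a1 k1.1 m1, g _ _ a2 k2.1 m2, g _ _ a3 k3.1 m3,
    g _ _ a4 k4.1 m4⟩, by omega, by omega, by omega, ?_⟩
  by_cases hf : f = p
  · subst hf
    rcases Ap x (Or.inr a4) with h | h | h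
    · exact absurd h k4.1
    · exact absurd h k4.2
    · rw [h]; omega
  · have := he _ k5.1 hf
    omega

lemma Q {G : SimpleGraph V} (S : Sat G) {u w p q : V} (h1 : G.Adj u w) (h2 : G.Adj w p)
    (h3 : G.Adj p q) (n1 : u ≠ p) (n2 : u ≠ q) (n3 : w ≠ q) (du : dg G u ≤ 2) (dw : dg G w ≤ 2)
    (dp : dg G p ≤ 2) (dq : dg G q ≤ 2) : False := by
  by_cases hu : dg G u ≤ 1
  · exact leaf S h1 h2 h3 n1 n3 hu dw dp dq
  by_cases hq : dg G q ≤ 1
  · exact leaf S h3.symm h2.symm h1.symm n3.symm n1.symm hq dp dw du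
  have Nw := nb2 h1.symm h2 n1 dw
  have Np := nb2 h2.symm h3 n3 dp
  have dp2 := two_le h2.symm h3 n3
  have dw2 := two_le h1.symm h2 n1
  obtain ⟨c, hc, hcp⟩ := other (G := G) (x := q) p (by omega)
  have hcw : c ≠ w := by
    rintro rfl
    rcases Nw q hc.symm with h | h
    · exact n2 h.symm
    · exact h3.ne h.symm
  by_cases hcu : c = u
  · subst hcu
    have Nc := nb2 h1 hc.symm n3 du
    have Nq := nb2 h3.symm hc n1.symm dq
    obtain ⟨A, e, hA, he, -, -, a, b, y, x, f, hne, ⟨a1, a2, a3, a4⟩, hd⟩ :=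
      S.yes c p n1 (fun h => by
        rcases Nc p h with h | h
        · exact h2.ne h.symm
        · exact h3.ne h)
    have cl0 : ∀ s t, G.Adj s t → (s = c ∨ s = w ∨ s = p ∨ s = q) →
        (t = c ∨ t = w ∨ t = p ∨ t = q) := by
      rintro s t h (rfl | rfl | rfl | rfl)
      · have := Nc t h; tauto
      · have := Nw t h; tauto
      · have := Np t h; tauto
      · have := Nq t h; tauto
    have cl : ∀ s t, A s t → ((s = c ∨ s = w ∨ s = p ∨ s = q) ↔
        (t = c ∨ t = w ∨ t = p ∨ t = q)) := by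
      intro s t h
      rcases hA _ _ h with h | h | h
      · exact ⟨cl0 _ _ h, cl0 _ _ h.symm⟩
      · simp [h.1, h.2]
      · simp [h.1, h.2]
    by_cases ha : a = c ∨ a = w ∨ a = p ∨ a = q
    · have hb := (cl _ _ a1).1 ha
      have hy := (cl _ _ a2).1 hb
      have hx := (cl _ _ a3).1 hy
      have hf := (cl _ _ a4).1 hx
      clear cl cl0 hA he hd Nc Nq Nw Np a1 a2 a3 a4
      grind
    · have hb := mt (cl _ _ a1).2 ha
      have hy := mt (cl _ _ a2).2 hb
      have hx := mt (cl _ _ a3).2 hy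
      have hf := mt (cl _ _ a4).2 hx
      push Not at ha hb hy hx hf
      have g : ∀ s t, A s t → s ≠ c → s ≠ p → G.Adj s t := fun s t h h1 h2 => by
        rcases hA _ _ h with h | h | h
        · exact h
        · exact absurd h.1 h1
        · exact absurd h.1 h2
      rw [he _ ha.1 ha.2.2.1, he _ hb.1 hb.2.2.1, he _ hy.1 hy.2.2.1, he _ hx.1 hx.2.2.1,
        he _ hf.1 hf.2.2.1] at hd
      exact S.no ⟨a, b, y, x, f, hne, ⟨g _ _ a1 ha.1 ha.2.2.1, g _ _ a2 hb.1 hb.2.2.1,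
        g _ _ a3 hy.1 hy.2.2.1, g _ _ a4 hx.1 hx.2.2.1⟩, hd⟩
  · by_cases h2c : 2 ≤ dg G c
    · exact S.no ⟨u, w, p, q, c, ⟨h1.ne, n1, n2, Ne.symm hcu, h2.ne, n3, hcw.symm, h3.ne, hcp.symm,
        hc.ne⟩, ⟨h1, h2, h3, hc⟩, by omega, by omega, by omega, by omega⟩
    · exact S.no ⟨c, q, p, w, u, ⟨hc.ne.symm, hcp, hcw, hcu, h3.ne.symm, n3.symm, n2.symm,
        h2.ne.symm, n1.symm, h1.ne.symm⟩, ⟨hc.symm, h3.symm, h2.symm, h1.symm⟩,
        by omega, by omega, by omega, by omega⟩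

lemma AB {G : SimpleGraph V} (S : Sat G) {y u : V} (hy : ∀ x, dg G x ≤ dg G y)
    (du : dg G u ≤ 2) (hu : dg G u = 2 → ∀ z, G.Adj u z → dg G z ≤ 2) (n : u ≠ y) :
    G.Adj u y := by
  by_contra hn
  obtain ⟨A, e, hA, he, eu, ey, a, b, c, x, f, hne, ⟨a1, a2, a3, a4⟩, hd⟩ := S.yes u y n hn
  have ge : ∀ s, dg G s ≤ e s := fun s => by
    by_cases h1 : s = u
    · rw [h1]; omega
    by_cases h2 : s = y
    · rw [h2]; omega
    · exact (he s h1 h2).ge
  have hle : ∀ s, s ≠ u → s ≠ y → e s ≤ dg G y := fun s h1 h2 => (he s h1 h2).trans_le (hy s)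
  by_cases hlt : dg G u < dg G y
  · have last : ∀ s t, s ≠ t → e s ≤ e t → s ≠ y := by
      rintro s t hst h rfl
      by_cases h1 : t = u
      · rw [h1] at h; omega
      · have := hle t h1 hst.symm; omega
    have m1 := last _ _ hne.1 hd.1
    have m2 := last _ _ hne.2.2.2.2.1 hd.2.1
    have m3 := last _ _ hne.2.2.2.2.2.2.2.1 hd.2.2.1
    have m4 := last _ _ hne.2.2.2.2.2.2.2.2.2 hd.2.2.2
    have g : ∀ s t, A s t → s ≠ y → t ≠ y ∨ s ≠ u → G.Adj s t := fun s t h h1 h2 => by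
      rcases hA _ _ h with h | h | h
      · exact h
      · rcases h2 with h2 | h2
        · exact absurd h.2 h2
        · exact absurd h.1 h2
      · exact absurd h.1 h1
    have g1 := g _ _ a1 m1 (Or.inl m2)
    have g2 := g _ _ a2 m2 (Or.inl m3)
    have g3 := g _ _ a3 m3 (Or.inl m4)
    have mid : ∀ s t r, G.Adj s t → G.Adj t r → s ≠ r → r ≠ y → e t ≤ e r → t ≠ u := by
      rintro s t r h1 h2 h3 h4 h5 rfl
      have := two_le h1.symm h2 h3
      have := hu (by omega) r h2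
      have := he r h2.ne.symm h4
      omega
    have k2 := mid _ _ _ g1 g2 hne.2.1 m3 hd.2.1
    have k3 := mid _ _ _ g2 g3 hne.2.2.2.2.2.1 m4 hd.2.2.1
    have low : ∀ s, G.Adj s u → e s ≤ e u → dg G s ≤ 2 := fun s h1 h2 => by
      have := ge s
      by_cases h : dg G u = 2
      · exact hu h s h1.symm
      · omega
    have e2 := he _ k2 m2
    have e3 := he _ k3 m3
    have e1 := ge a
    by_cases k4 : x = u
    · subst k4
      by_cases h5 : f = y
      · have := low c g3 hd.2.2.1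
        exact Q S g1 g2 g3 hne.2.1 hne.2.2.1 hne.2.2.2.2.2.1 (by omega) (by omega) this du
      · exact mid _ _ _ g3 (g _ _ a4 m4 (Or.inl h5)) hne.2.2.2.2.2.2.2.2.1 h5 hd.2.2.2 rfl
    have g4 := g _ _ a4 m4 (Or.inr k4)
    have e4 := he _ k4 m4
    by_cases k5 : f = u
    · subst k5
      have := low x g4 hd.2.2.2
      exact Q S g2 g3 g4 hne.2.2.2.2.2.1 hne.2.2.2.2.2.2.1 hne.2.2.2.2.2.2.2.2.1 (by omega)
        (by omega) this du
    refine S.no ⟨a, b, c, x, f, hne, ⟨g1, g2, g3, g4⟩, by omega, by omega, by omega, ?_⟩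
    by_cases h5 : f = y
    · rw [h5]; exact hy x
    · have := he _ k5 h5
      omega
  · have g : ∀ s t r, A s t → s ≠ r → t ≠ r → e t ≤ e r → G.Adj s t := by
      intro s t r h h1 h2 h3
      rcases hA _ _ h with h | ⟨rfl, rfl⟩ | ⟨rfl, rfl⟩
      · exact h
      · have := hle r h1.symm h2.symm; omega
      · have := hle r h2.symm h1.symm; omega
    have := hy a; have := hy b; have := hy c; have := hy x
    exact Q S (g _ _ _ a1 hne.2.1 hne.2.2.2.2.1 hd.2.1)
      (g _ _ _ a2 hne.2.2.2.2.2.1 hne.2.2.2.2.2.2.2.1 hd.2.2.1)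
      (g _ _ _ a3 hne.2.2.2.2.2.2.2.2.1 hne.2.2.2.2.2.2.2.2.2 hd.2.2.2)
      hne.2.1 hne.2.2.1 hne.2.2.2.2.2.1 (by omega) (by omega) (by omega) (by omega)

lemma noB {G : SimpleGraph V} (S : Sat G) {y u : V} (hy : ∀ x, dg G x ≤ dg G y)
    (h3 : 3 ≤ dg G y) (du : dg G u = 2) : ∃ z, G.Adj u z ∧ 3 ≤ dg G z := by
  by_contra hn
  push Not at hn
  have := hn y (AB S hy du.le (fun _ z hz => by have := hn z hz; omega)
    (by rintro rfl; omega))
  omega

lemma oneLeaf {G : SimpleGraph V} (S : Sat G) {y u v : V} (hy : ∀ x, dg G x ≤ dg G y)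
    (h3 : 3 ≤ dg G y) (du : dg G u ≤ 1) (dv : dg G v ≤ 1) : u = v := by
  by_contra n
  have au := AB S hy (u := u) (by omega) (by omega) (by rintro rfl; omega)
  have av := AB S hy (u := v) (by omega) (by omega) (by rintro rfl; omega)
  have Nu := nb1 au du
  have Nv := nb1 av dv
  have uq : ∀ z, dg G y ≤ dg G z → z = y := fun z hz =>
    Nu z (AB S (y := z) (fun x => (hy x).trans hz) (by omega) (by omega) (by rintro rfl; omega))
  obtain ⟨A, e, hA, he, eu, ev, a, b, c, x, f, hne, ⟨a1, a2, a3, a4⟩, hd⟩ :=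
    S.yes u v n (fun h => av.ne (Nu v h))
  have ey := he y au.ne.symm av.ne.symm
  have last : ∀ s t, s ≠ t → e s ≤ e t → s ≠ y := by
    rintro s t hst h rfl
    by_cases h1 : t = u
    · rw [h1] at h; omega
    by_cases h2 : t = v
    · rw [h2] at h; omega
    have := he t h1 h2
    exact hst (uq t (by omega)).symm
  have m1 := last _ _ hne.1 hd.1
  have m2 := last _ _ hne.2.2.2.2.1 hd.2.1
  have m3 := last _ _ hne.2.2.2.2.2.2.2.1 hd.2.2.1
  have m4 := last _ _ hne.2.2.2.2.2.2.2.2.2 hd.2.2.2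
  have Au : ∀ z, A u z ∨ A z u → z = v ∨ z = y := by
    rintro z (h | h) <;> rcases hA _ _ h with h | h | h
    · exact Or.inr (Nu z h)
    · exact Or.inl h.2
    · exact absurd h.1 n
    · exact Or.inr (Nu z h.symm)
    · exact absurd h.2 n
    · exact Or.inl h.1
  have Av : ∀ z, A v z ∨ A z v → z = u ∨ z = y := by
    rintro z (h | h) <;> rcases hA _ _ h with h | h | h
    · exact Or.inr (Nv z h)
    · exact absurd h.1.symm n
    · exact Or.inl h.2
    · exact Or.inr (Nv z h.symm)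
    · exact Or.inl h.1
    · exact absurd h.2.symm n
  have mid : ∀ s t r, A s t → A t r → s ≠ r → s ≠ y → r ≠ y → t ≠ u ∧ t ≠ v := by
    intro s t r hs hr hsr hsp hrp
    constructor
    · rintro rfl
      have := Au s (Or.inr hs); have := Au r (Or.inl hr); grind
    · rintro rfl
      have := Av s (Or.inr hs); have := Av r (Or.inl hr); grind
  have nx : ∀ s t, A s t ∨ A t s → s ≠ y → s ≠ u ∧ s ≠ v → t ≠ u ∧ t ≠ v := by
    intro s t hs hsp hsu
    constructor
    · rintro rfl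
      have := Au s hs.symm; grind
    · rintro rfl
      have := Av s hs.symm; grind
  have k2 := mid _ _ _ a1 a2 hne.2.1 m1 m3
  have k1 := nx _ _ (Or.inr a1) m2 k2
  have k3 := nx _ _ (Or.inl a2) m2 k2
  have k4 := nx _ _ (Or.inl a3) m3 k3
  have k5 := nx _ _ (Or.inl a4) m4 k4
  have g : ∀ s t, A s t → s ≠ u ∧ s ≠ v → G.Adj s t := fun s t h h1 => by
    rcases hA _ _ h with h | h | h
    · exact h
    · exact absurd h.1 h1.1
    · exact absurd h.1 h1.2
  rw [he _ k1.1 k1.2, he _ k2.1 k2.2, he _ k3.1 k3.2, he _ k4.1 k4.2, he _ k5.1 k5.2] at hd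
  exact S.no ⟨a, b, c, x, f, hne, ⟨g _ _ a1 k1, g _ _ a2 k2, g _ _ a3 k3, g _ _ a4 k4⟩, hd⟩

lemma oneC {G : SimpleGraph V} (S : Sat G) {y u v : V} (hy : ∀ x, dg G x ≤ dg G y)
    (du : dg G u = 3) (dv : dg G v = 3) (hu : ∀ z, G.Adj u z → dg G z ≤ 2)
    (hv : ∀ z, G.Adj v z → dg G z ≤ 2) : u = v := by
  by_contra n
  have h3 : 3 ≤ dg G y := du ▸ hy u
  obtain ⟨A, e, hA, he, eu, ev, a, b, c, x, f, hne, ⟨a1, a2, a3, a4⟩, hd⟩ :=
    S.yes u v n (fun h => by have := hu v h; omega)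
  have ee : ∀ s t, G.Adj s t → s = u ∨ s = v → dg G t ≤ 2 ∧ e t = dg G t := by
    intro s t h hs
    have h2 : dg G t ≤ 2 := by
      rcases hs with rfl | rfl
      · exact hu t h
      · exact hv t h
    exact ⟨h2, he t (by rintro rfl; omega) (by rintro rfl; omega)⟩
  have e4 : ∀ s, s = u ∨ s = v → e s = 4 ∧ dg G s = 3 := by
    rintro s (rfl | rfl) <;> omega
  have suc : ∀ s t, A s t → e s ≤ e t → s = u ∨ s = v → t = u ∨ t = v := by
    intro s t h hle hs
    rcases hA _ _ h with h | h | h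
    · have := ee s t h hs
      have := e4 s hs
      omega
    · exact Or.inr h.2
    · exact Or.inl h.2
  have k3 : ¬ (c = u ∨ c = v) := fun h => by
    have h1 := suc _ _ a3 hd.2.2.1 h
    have h2 := suc _ _ a4 hd.2.2.2 h1
    clear suc e4 ee hA he
    grind
  have k2 := mt (suc _ _ a2 hd.2.1) k3
  have k1 := mt (suc _ _ a1 hd.1) k2
  have g : ∀ s t, A s t → ¬ (s = u ∨ s = v) → G.Adj s t ∧ e s = dg G s := fun s t h h1 => by
    refine ⟨?_, he s (fun h => h1 (Or.inl h)) (fun h => h1 (Or.inr h))⟩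
    rcases hA _ _ h with h | h | h
    · exact h
    · exact absurd (Or.inl h.1) h1
    · exact absurd (Or.inr h.1) h1
  obtain ⟨g1, e1⟩ := g _ _ a1 k1
  obtain ⟨g2, e2⟩ := g _ _ a2 k2
  obtain ⟨g3, e3⟩ := g _ _ a3 k3
  by_cases k4 : x = u ∨ x = v
  · have := ee x c g3.symm k4
    have := two_le g1.symm g2 hne.2.1
    obtain ⟨z, hz, hz3⟩ := noB S hy h3 (u := b) (by omega)
    rcases nb2 g1.symm g2 hne.2.1 (by omega) z hz with rfl | rfl <;> omega
  obtain ⟨g4, e4'⟩ := g _ _ a4 k4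
  refine S.no ⟨a, b, c, x, f, hne, ⟨g1, g2, g3, g4⟩, by omega, by omega, by omega, ?_⟩
  by_cases k5 : f = u ∨ f = v
  · have := ee f x g4.symm k5
    have := e4 f k5
    omega
  · have := he f (fun h => k5 (Or.inl h)) (fun h => k5 (Or.inr h))
    omega

lemma dg_eq (G : SimpleGraph V) (v : V) : dg G v = (Finset.univ.filter (G.Adj v)).card := by
  rw [dg, ← Set.ncard_coe_finset]
  congr 1
  ext z
  simp

lemma sum_dg (G : SimpleGraph V) : ∑ v, dg G v = 2 * G.edgeSet.ncard := by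
  have := G.sum_degrees_eq_twice_card_edges
  rw [← Set.ncard_coe_finset, SimpleGraph.coe_edgeFinset] at this
  rw [← this]
  refine Finset.sum_congr rfl fun v _ => ?_
  rw [dg_eq, ← SimpleGraph.card_neighborFinset_eq_degree, SimpleGraph.neighborFinset_eq_filter]

lemma lower {G : SimpleGraph V} (S : Sat G) (hn : 4 ≤ Fintype.card V) :
    7 * Fintype.card V ≤ 6 * G.edgeSet.ncard + 5 := by
  have : Nonempty V := Fintype.card_pos_iff.1 (by omega)
  obtain ⟨y, hy⟩ := Finite.exists_max (dg G)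
  have h3 : 3 ≤ dg G y := by
    by_contra h3
    have hsub : (Finset.univ : Finset V) ⊆ insert y (Finset.univ.filter (G.Adj y)) := by
      intro u _
      by_cases h : u = y
      · simp [h]
      · have := hy u
        have := AB S hy (u := u) (by omega) (fun _ z _ => by have := hy z; omega) h
        simp [this.symm]
    have h1 := (Finset.card_le_card hsub).trans (Finset.card_insert_le _ _)
    rw [← dg_eq, Finset.card_univ] at h1
    omega
  let R : V → V → Prop := fun v x => G.Adj v x ∧ dg G v = 2 ∧ 3 ≤ dg G x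
  have dc : ∑ v, (Finset.univ.filter fun x => R v x).card
      = ∑ x, (Finset.univ.filter fun v => R v x).card := by
    simp only [Finset.card_filter]
    exact Finset.sum_comm
  let C : V → Prop := fun v => dg G v = 3 ∧ ∀ z, G.Adj v z → dg G z ≤ 2
  have pt : ∀ v, 7 + (Finset.univ.filter fun w => R w v).card ≤
      3 * dg G v + (Finset.univ.filter fun x => R v x).card +
        (4 * (if dg G v ≤ 1 then 1 else 0) + if C v then 1 else 0) := by
    intro v
    have t1 : (Finset.univ.filter fun w => R w v).card ≤ dg G v := by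
      refine le_of_le_of_eq ?_ (dg_eq G v).symm
      exact Finset.card_le_card fun w hw => by
        simp only [Finset.mem_filter] at hw ⊢
        exact ⟨hw.1, hw.2.1.symm⟩
    by_cases h2 : dg G v ≤ 2
    · have t0 : (Finset.univ.filter fun w => R w v).card = 0 := by
        rw [Finset.card_eq_zero, Finset.filter_eq_empty_iff]
        intro w _ hw
        have := hw.2.2
        omega
      by_cases h1 : dg G v ≤ 1
      · have := one_le (AB S hy (u := v) (by omega) (by omega) (by rintro rfl; omega))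
        rw [if_pos h1]
        omega
      · obtain ⟨z, hz, hz3⟩ := noB S hy h3 (u := v) (by omega)
        have : 0 < (Finset.univ.filter fun x => R v x).card :=
          Finset.card_pos.2 ⟨z, Finset.mem_filter.2 ⟨Finset.mem_univ _, hz, by omega, hz3⟩⟩
        omega
    by_cases h4 : 4 ≤ dg G v
    · omega
    by_cases hC : C v
    · rw [if_pos hC]
      omega
    · have : ∃ z, G.Adj v z ∧ 3 ≤ dg G z := by
        by_contra hne
        push Not at hne
        exact hC ⟨by omega, fun z hz => by have := hne z hz; omega⟩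
      obtain ⟨z, hz, hz3⟩ := this
      have : (Finset.univ.filter fun w => R w v).card < dg G v := by
        refine lt_of_lt_of_eq ?_ (dg_eq G v).symm
        refine Finset.card_lt_card ⟨fun w hw => ?_, fun hsub => ?_⟩
        · simp only [Finset.mem_filter] at hw ⊢
          exact ⟨hw.1, hw.2.1.symm⟩
        · have := (Finset.mem_filter.1 (hsub (Finset.mem_filter.2 ⟨Finset.mem_univ z, hz⟩))).2.2.1
          omega
      omega
  have s1 : ∑ v, (if dg G v ≤ 1 then 1 else 0) ≤ 1 := by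
    rw [← Finset.card_filter]
    exact Finset.card_le_one.2 fun a ha b hb =>
      oneLeaf S hy h3 (Finset.mem_filter.1 ha).2 (Finset.mem_filter.1 hb).2
  have s2 : ∑ v, (if C v then 1 else 0) ≤ 1 := by
    rw [← Finset.card_filter]
    exact Finset.card_le_one.2 fun a ha b hb =>
      oneC S hy (Finset.mem_filter.1 ha).2.1 (Finset.mem_filter.1 hb).2.1
        (Finset.mem_filter.1 ha).2.2 (Finset.mem_filter.1 hb).2.2
  have tot := Finset.sum_le_sum fun v (_ : v ∈ Finset.univ) => pt v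
  simp only [Finset.sum_add_distrib, ← Finset.mul_sum, Finset.sum_const, Finset.card_univ,
    smul_eq_mul] at tot
  rw [sum_dg] at tot
  omega

lemma exists_sat (n : ℕ) : ∃ G : SimpleGraph (Fin n), Saturated 5 G := by
  have h0 : mp (⊥ : SimpleGraph (Fin n)) ≤ 4 := by
    by_contra h
    obtain ⟨a, b, -, -, -, -, ⟨h, -⟩, -⟩ := to_p5 (⊥ : SimpleGraph (Fin n)) (by omega)
    exact h
  obtain ⟨G, hG⟩ := Set.Finite.exists_maximal
    (Set.toFinite {G : SimpleGraph (Fin n) | mp G ≤ 4}) ⟨⊥, h0⟩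
  refine ⟨G, hG.1, fun u v huv hn => ?_⟩
  by_contra h
  have := hG.2 (show mp (G ⊔ SimpleGraph.edge u v) ≤ 4 by omega) le_sup_left
  exact hn (this (Or.inr ((SimpleGraph.edge_adj ..).2 ⟨Or.inl ⟨rfl, rfl⟩, huv⟩)))

lemma h_lower (n : ℕ) (hn : 4 ≤ n) : 7 * n ≤ 6 * h n 5 + 5 := by
  obtain ⟨G, hG⟩ := exists_sat n
  obtain ⟨G', hG', he⟩ := Nat.sInf_mem (s := {e | ∃ G : SimpleGraph (Fin n), Saturated 5 G ∧
    G.edgeSet.ncard = e}) ⟨_, G, hG, rfl⟩
  have := lower (sat_of G' hG') (by simpa using hn)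
  rw [he, Fintype.card_fin] at this
  exact this

theorem result (n : ℕ) (hn : 4 ≤ n) : 7 * n ≤ 6 * h n 5 + 5 := h_lower n hn

end Pool.Agent.Results.MP_d898df_co.Lower
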